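import Pool.Agent.Y120.J.All

/-!
# The modular Schanuel conjecture for the isogeny classes of the points with integral modular invariant

Let `j` be the modular invariant, `w_1, …, w_k` points of the upper half-plane for which the numbers `t_i = j(w_i)` are
integers (of any signs), and `z_i = (a_i w_i + b_i) / (c_i w_i + d_i)` any points equivalent to them under `GL_2^+(ℚ)`. The
numbers `j(z_i)` are algebraic; unless `z_i` is a CM point or two of the points are equivalent, the modular Schanuel
conjecture predicts that `z_1, …, z_k` are algebraically independent.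

We prove that for almost all `k`-tuples of integers `(t_1, …, t_k)` and **all** points `z_i` equivalent to points `w_i` with
`j(w_i) = t_i` (there is no bound for the degrees of the isogenies, or for the coefficients of the matrices) the numbers
`z_1, …, z_k` do not satisfy any polynomial relation of degree at most `δ`, whatever the height of the coefficients; they
may even lie in any `ℚ`-vector space `V` of complex numbers of dimension at most `D`. In the boxes
`x_i < |t_i| ≤ x_i + N` the number of the exceptional tuples `t` is at most `C N^(k-1) ∑ (1 + N / (x_i + N)^c)`, with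
`c > 0` and `C` depending only on `k`, `δ`, `D`.

Proof. At `X = 1/j(z)`, `Im z` large, `2 π i z = log X + G(X)/F(X)` with the G-functions `F`, `G` of the hypergeometric
equation of `j` (Ramanujan's differential equations); the theorem of `Pool.Agent.Y120.R` (Siegel's method at `1/t`, with a
Hermite-Padé argument for many `t` together) says that relations at almost all tuples are specialisations of functional
relations, and there are none, by the algebraic independence of `z`, `j`, `j'`, `j''` (Mahler). The points with `j(z)` real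
and large are equivalent under `SL_2(ℤ)` to points with `Re z ∈ {0, 1/2}`, and a fractional linear substitution changes the
degree of a relation by a bounded factor only.
-/

set_option autoImplicit false

namespace Pool.Agent.Results.MP_47914d_nt.IsogenyClasses

/-- the normalised Eisenstein series of weight `4` -/
noncomputable def E4 (τ : ℂ) : ℂ :=
  1 + 240 * ∑' m : ℕ, ((ArithmeticFunction.sigma 3 (m + 1) : ℕ) : ℂ) *
    Complex.exp (2 * (Real.pi : ℂ) * Complex.I * ((m : ℂ) + 1) * τ)

/-- the normalised Eisenstein series of weight `6` -/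
noncomputable def E6 (τ : ℂ) : ℂ :=
  1 - 504 * ∑' m : ℕ, ((ArithmeticFunction.sigma 5 (m + 1) : ℕ) : ℂ) *
    Complex.exp (2 * (Real.pi : ℂ) * Complex.I * ((m : ℂ) + 1) * τ)

/-- the modular invariant `j = q⁻¹ + 744 + 196884 q + ⋯` -/
noncomputable def J (τ : ℂ) : ℂ := 1728 * E4 τ ^ 3 / (E4 τ ^ 3 - E6 τ ^ 2)

/-- `z` is equivalent under `GL_2^+(ℚ)` to a point `w` of the upper half-plane with `j(w) = t`. -/
def Isogenous (t : ℤ) (z : ℂ) : Prop :=
  ∃ w : ℂ, 0 < w.im ∧ J w = t ∧ ∃ a b c d : ℚ, 0 < a * d - b * c ∧ z = ((a : ℂ) * w + b) / ((c : ℂ) * w + d)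

/-- For some points `z_1, …, z_k`, with `z_i` equivalent to a point `w_i` with `j(w_i) = t_i`, the numbers `z_1, …, z_k`
satisfy a polynomial relation of total degree at most `δ`, not trivial, with coefficients in `V`. -/
def Exceptional (δ : ℕ) (V : Submodule ℚ ℂ) {k : ℕ} (t : Fin k → ℤ) : Prop :=
  ∃ z : Fin k → ℂ, (∀ i, Isogenous (t i) (z i)) ∧
    ∃ P : MvPolynomial (Fin k) ℂ, P ≠ 0 ∧ P.totalDegree ≤ δ ∧ (∀ s, P.coeff s ∈ V) ∧ MvPolynomial.eval z P = 0

/-- There are `c > 0` and `C`, depending only on `k`, `δ`, `D`, such that for every `ℚ`-subspace `V` of `ℂ` of dimension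
at most `D` and all `x_1, …, x_k`, `N`, at most `C N^(k-1) ∑ (1 + N / (x_i + N)^c)` of the `k`-tuples of integers with
`x_i < |t_i| ≤ x_i + N` are exceptional. -/
theorem result (k δ D : ℕ) :
    ∃ c C : ℝ, 0 < c ∧ 0 ≤ C ∧ ∀ (V : Submodule ℚ ℂ) [Module.Finite ℚ V], Module.finrank ℚ V ≤ D →
      ∀ (x : Fin k → ℕ) (N : ℕ), 1 ≤ N → ∀ S : Finset (Fin k → ℤ),
      (∀ t ∈ S, (∀ i, (x i : ℤ) < |t i| ∧ |t i| ≤ x i + N) ∧ Exceptional δ V t) →
      (S.card : ℝ) ≤ C * (N : ℝ) ^ (k - 1) * ∑ i, (1 + N / ((x i : ℝ) + N) ^ c) := by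
  have h4 : E4 = Pool.Agent.TH21.MS.E4 := funext Pool.Agent.Y120.J.E4_same
  have h6 : E6 = Pool.Agent.TH21.MS.E6 := funext Pool.Agent.Y120.J.E6_same
  have hJ : J = Pool.Agent.TH21.MS.jj := by
    funext τ
    unfold J Pool.Agent.TH21.MS.jj
    rw [h4, h6]
  obtain ⟨c, C, hc, hC, h⟩ := Pool.Agent.Y120.J.countI k δ D
  refine ⟨c, C, hc, hC, ?_⟩
  intro V _ hV x N hN S hS
  refine h V hV x N hN S fun t ht => ?_
  obtain ⟨hbox, z, hz, P, hP⟩ := hS t ht
  choose w hw hwt a b c' d hdet hzw using hz
  refine ⟨hbox, z, fun i => ⟨w i, hw i⟩, fun i => ?_, fun i => ?_, P, hP⟩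
  · have h1 := hwt i
    rw [hJ] at h1
    exact h1
  · exact Pool.Agent.Y120.J.toM4 ⟨a i, b i, c' i, d i, (hdet i).ne', hzw i⟩

end Pool.Agent.Results.MP_47914d_nt.IsogenyClasses
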