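import Pool.Agent.Y120.K.All

/-!
# The modular Schanuel conjecture for isogeny classes: distinct integral invariants in windows

Let `j` be the modular invariant, `v_1, …, v_k` points of the upper half-plane for which the numbers `n_i = j(v_i)` are
distinct integers, and `z_i = (a_i v_i + b_i) / (c_i v_i + d_i)` any points equivalent to them under `GL_2^+(ℚ)`. The numbers
`j(z_i)` are algebraic; unless `z_i` is a CM point or two of the points are equivalent, the modular Schanuel conjecture
predicts that `z_1, …, z_k` are algebraically independent.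

We prove: for all `q`, `k`, `D`, `δ` there is a number `E` such that for all `N`, `H` with `(H + 2)^E ≤ N`, all complex numbers
`w_1, …, w_q` and each sign `ε` there is a set `S` of **at most `q + 2`** integers such that for **all** distinct integers
`n_1, …, n_k` outside `S` with `N ≤ ε n_i ≤ N + H` and **all** points `z_i` equivalent to points `v_i` with `j(v_i) = n_i`
(there is no bound for the degrees of the isogenies, or for the coefficients of the matrices) every relation of degree at
most `δ` between `z_1, …, z_k`, with coefficients which are polynomials in `2 π i, w_1, …, w_q` over a number field of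
degree at most `D`, is trivial: the polynomial is zero after the substitution of the numbers `2 π i, w_1, …, w_q`. In
particular (`q = 0`) outside two integers of the window there is no relation of degree at most `δ` between
`z_1, …, z_k` and `π`, over any number field of degree at most `D`, of any height.

`MP_47914d_nt.IsogenyClasses` counts the exceptional tuples of integers in arbitrary boxes; here in a short window no tuple
of distinct integers outside `S` is exceptional.

Proof. At `X = 1/j(z)`, `Im z` large, `2 π i z = log X + G(X)/F(X)` with the G-functions `F`, `G` of the hypergeometric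
equation of `j`. In a window the values at `1/(t - g)`, `1 ≤ g ≤ H`, are values at `1/t` of a family of shifted G-functions.
The products over all `k`-tuples of distinct shifts are linearly independent over `ℚ(X)`, by analytic continuation around
the elliptic points and around infinity, and Siegel's method is applied to all tuples of shifts at once, with bounds which
are polynomial in the size of the shifts. The relations at more than `q + 2` exceptional points would eliminate the
constants `2 π i`, `w_l`, `log |n|`. A fractional linear substitution changes the degree of a relation by a bounded factor only.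
-/

set_option autoImplicit false

namespace Pool.Agent.Results.MP_47914d_nt.IsogenyWindows

/-- the normalised Eisenstein series of weight `4` -/
noncomputable def E4 (τ : ℂ) : ℂ :=
  1 + 240 * ∑' m : ℕ, ((ArithmeticFunction.sigma 3 (m + 1) : ℕ) : ℂ) *
    Complex.exp (2 * (Real.pi : ℂ) * Complex.I * ((m : ℂ) + 1) * τ)

/-- the normalised Eisenstein series of weight `6` -/
noncomputable def E6 (τ : ℂ) : ℂ :=
  1 - 504 * ∑' m : ℕ, ((ArithmeticFunction.sigma 5 (m + 1) : ℕ) : ℂ) *
    Complex.exp (2 * (Real.pi : ℂ) * Complex.I * ((m : ℂ) + 1) * τ)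

/-- the modular invariant `j = q⁻¹ + 744 + 196884 q + ⋯` -/
noncomputable def J (τ : ℂ) : ℂ := 1728 * E4 τ ^ 3 / (E4 τ ^ 3 - E6 τ ^ 2)

/-- `z` is equivalent under `GL_2^+(ℚ)` to a point `v` of the upper half-plane with `j(v) = t`. -/
def Isogenous (t : ℤ) (z : ℂ) : Prop :=
  ∃ v : ℂ, 0 < v.im ∧ J v = t ∧ ∃ a b c d : ℚ, 0 < a * d - b * c ∧ z = ((a : ℂ) * v + b) / ((c : ℂ) * v + d)

/-- The numbers `2 π i, w_1, …, w_q`. -/
noncomputable def constants {q : ℕ} (w : Fin q → ℂ) : Option (Fin q) → ℂ := fun o => o.elim (2 * Real.pi * Complex.I) w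

/-- The numbers `2 π i, w_1, …, w_q` and `k` variables. -/
noncomputable def generic {q k : ℕ} (w : Fin q → ℂ) : Option (Fin q) ⊕ Fin k → MvPolynomial (Fin k) ℂ :=
  Sum.elim (fun o => MvPolynomial.C (constants w o)) MvPolynomial.X

lemma J_eq : J = Pool.Agent.TH21.MS.jj := by
  have h4 : E4 = Pool.Agent.TH21.MS.E4 := funext Pool.Agent.Y120.J.E4_same
  have h6 : E6 = Pool.Agent.TH21.MS.E6 := funext Pool.Agent.Y120.J.E6_same
  funext τ
  unfold J Pool.Agent.TH21.MS.jj
  rw [h4, h6]

lemma constants_eq {q : ℕ} (w : Fin q → ℂ) : constants w = Pool.Agent.Y120.K.wo w := by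
  funext o
  rcases o with _ | o <;> rfl

lemma sign {ε : ℤ} (hε : ε = 1 ∨ ε = -1) : ∃ s : Bool, Pool.Agent.Y120.J.si s = ε := by
  rcases hε with h | h
  · exact ⟨true, by rw [h]; rfl⟩
  · exact ⟨false, by rw [h]; rfl⟩

/-- For all `q`, `k`, `D`, `δ` there is `E` such that for all `N`, `H` with `(H + 2)^E ≤ N`, all `w_1, …, w_q` and `ε = ±1`
there is a set `S` of at most `q + 2` integers such that for all distinct integers `n_1, …, n_k` outside `S` with
`N ≤ ε n_i ≤ N + H` and all `z_i` isogenous to points with invariants `n_i` every polynomial `P` of degree at most `δ` over a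
number field `K` of degree at most `D` which vanishes at `2 π i, w_1, …, w_q, z_1, …, z_k` is zero after the substitution of
`2 π i, w_1, …, w_q`. -/
theorem result (q k D δ : ℕ) : ∃ E : ℕ, ∀ N H : ℕ, (H + 2) ^ E ≤ N →
    ∀ (w : Fin q → ℂ) (ε : ℤ), ε = 1 ∨ ε = -1 →
    ∃ S : Finset ℤ, S.card ≤ q + 2 ∧ ∀ n : Fin k → ℤ, Function.Injective n →
      (∀ i, (N : ℤ) ≤ ε * n i ∧ ε * n i ≤ N + H ∧ n i ∉ S) →
      ∀ z : Fin k → ℂ, (∀ i, Isogenous (n i) (z i)) →
      ∀ K : IntermediateField ℚ ℂ, FiniteDimensional ℚ K → Module.finrank ℚ K ≤ D →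
      ∀ P : MvPolynomial (Option (Fin q) ⊕ Fin k) K, P.totalDegree ≤ δ →
        MvPolynomial.aeval (Sum.elim (constants w) z) P = 0 → MvPolynomial.aeval (generic (k := k) w) P = 0 := by
  obtain ⟨E, hE⟩ := Pool.Agent.Y120.K.winI Pool.Agent.Y120.K.hnr q k D δ
  refine ⟨E, fun N H hN w ε hε => ?_⟩
  obtain ⟨s, hs⟩ := sign hε
  obtain ⟨S, hSc, hS⟩ := hE N H hN w s
  refine ⟨S, hSc, fun n hn1 hnS z hz K hK hKD P hP hP0 => ?_⟩
  choose v hv hvn a b c d hdet hzv using hz
  rw [hs] at hS
  rw [constants_eq] at hP0
  have h1 := hS n hn1 hnS (fun i => ⟨v i, hv i⟩) (fun i => by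
    have h1 := hvn i
    rw [J_eq] at h1
    exact h1) z (fun i => ⟨a i, b i, c i, d i, (hdet i).ne', hzv i⟩) K hK hKD P hP hP0
  have h2 : MvPolynomial.aeval (generic (k := k) w) P = Pool.Agent.Y120.K.fr w P := by
    unfold generic Pool.Agent.Y120.K.fr
    rw [constants_eq]
  rw [h2]
  apply MvPolynomial.funext
  intro u
  rw [map_zero, Pool.Agent.Y120.K.fr_eval]
  exact h1 u

end Pool.Agent.Results.MP_47914d_nt.IsogenyWindows
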