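import Pool.Agent.Y216.TW.Main

/-!
# Values of `j`, `j'`, `j''` at the points `z = i s exp (exp (⋯ (x)))`, `x` in a real number field

For `x > 0` and `i = 0, 1, …, m - 1` let `e_i (x) = exp (exp (⋯ (x)))` be the `i`-th iterated
exponential, `e_0 (x) = x`. For every `i` let `s_(i 1), …, s_(i p)` be positive real numbers which are
linearly independent over `ℚ`. For `n`-tuples `(x_1, …, x_n)` of positive elements of a real number
field `k` we consider the `m n p` points `z = i s_(i j) e_i (x_l)` of the upper half-plane, which are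
transcendental for `i ≥ 1` and algebraic `s_(i j)`. If `s_(i 1) = 1 / (2π)` for all `i`, then
`exp (-2πi z) = e_(i + 1) (x_l)` for `z = i s_(i 1) e_i (x_l)`, so that the numbers below contain all
points `z` (up to the factors `i s_(i j)`) together with the values `j (z)`, as in the modular
Schanuel conjecture.

We prove that the `n`-tuples of height at most `T` for which the numbers `π`, `log x_l`,
`x_l ^ σ_1, …, x_l ^ σ_r` (for `1, σ_1, …, σ_r` linearly independent over `ℚ`) and `exp (-2πi z)`,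
`j (z)`, `j' (z)`, `j'' (z)` satisfy a relation (even an approximate one) of degree at most `d` with
coefficients in `k` of height at most `T ^ A` lie on at most `C T ^ ε` hypersurfaces of degree at
most `D`. The earlier results of this pool concern points `z = i s x ^ ρ` (`PointsNomesJets`,
`RealFieldsPointsNomesJets`) and points of comparable height (`MP_ede373_nt.ComparableGrowth`).
-/

set_option autoImplicit false

namespace Pool.Agent.Results.MP_47914d_nt.IteratedExponentials

/-- the normalised Eisenstein series of weight `4` -/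
noncomputable def E4 (τ : ℂ) : ℂ :=
  1 + 240 * ∑' m : ℕ, ((ArithmeticFunction.sigma 3 (m + 1) : ℕ) : ℂ) *
    Complex.exp (2 * (Real.pi : ℂ) * Complex.I * τ) ^ (m + 1)

/-- the normalised Eisenstein series of weight `6` -/
noncomputable def E6 (τ : ℂ) : ℂ :=
  1 - 504 * ∑' m : ℕ, ((ArithmeticFunction.sigma 5 (m + 1) : ℕ) : ℂ) *
    Complex.exp (2 * (Real.pi : ℂ) * Complex.I * τ) ^ (m + 1)

/-- the modular invariant `j = q⁻¹ + 744 + 196884 q + ⋯` -/
noncomputable def j (τ : ℂ) : ℂ := 1728 * E4 τ ^ 3 / (E4 τ ^ 3 - E6 τ ^ 2)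

/-- `exp (-2πi z), j (z), j' (z), j'' (z)` (complex derivatives) -/
noncomputable def jet (z : ℂ) : Fin 4 → ℂ :=
  ![Complex.exp (-(2 * (Real.pi : ℂ) * Complex.I * z)), j z, deriv j z, deriv (deriv j) z]

/-- the `(4 m p + r + 1) n + 1` numbers: `π`; for every `l ≤ n` the numbers `log x_l` and
`x_l ^ σ_i`; and `exp (-2πi z), j (z), j' (z), j'' (z)` at the points `z = i s_(i j) e_i (x_l)`, where
`e_i` is the `i`-th iterate of the exponential function -/
noncomputable def numbers {k : Type} [Field k] (τ : k →+* ℝ) {r m p n : ℕ} (σ : Fin r → ℝ)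
    (s : Fin m → Fin p → ℝ) (x : Fin n → k) :
    Option (Fin n × (Option (Fin r) ⊕ (Fin m × (Fin p × Fin 4)))) → ℂ
  | none => (Real.pi : ℂ)
  | some (l, Sum.inl none) => (Real.log (τ (x l)) : ℂ)
  | some (l, Sum.inl (some i)) => (((τ (x l) : ℝ) ^ σ i : ℝ) : ℂ)
  | some (l, Sum.inr (i, j, q)) => jet (Complex.I * ((s i j * Real.exp^[i] (τ (x l)) : ℝ) : ℂ)) q

/-- The `n`-tuples `x` of elements of `k`, of height at most `T` and with `τ x_l ∈ [a, b]`, for which
some nonzero polynomial with coefficients in `k` of height at most `T ^ A`, of degree at most `d` in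
each variable, takes at the `(4 m p + r + 1) n + 1` numbers a value of absolute value at most
`T ^ (-B)`. -/
def Exceptional {k : Type} [Field k] [NumberField k] (τ : k →+* ℝ) {r m p : ℕ} (n d : ℕ)
    (σ : Fin r → ℝ) (s : Fin m → Fin p → ℝ) (a b A B T : ℝ) : Set (Fin n → k) :=
  {x | (∀ l, τ (x l) ∈ Set.Icc a b ∧ Height.mulHeight₁ (x l) ≤ T) ∧
    ∃ P : MvPolynomial (Option (Fin n × (Option (Fin r) ⊕ (Fin m × (Fin p × Fin 4))))) k, P ≠ 0 ∧
      (∀ i, P.degreeOf i ≤ d) ∧ (∀ e, Height.mulHeight₁ (P.coeff e) ≤ T ^ A) ∧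
      ‖MvPolynomial.eval₂ (Complex.ofRealHom.comp τ) (numbers τ σ s x) P‖ ≤ T ^ (-B)}

/-- Let `[a, b] ⊂ (0, ∞)`, `n ≥ 1`, let `1, σ_1, …, σ_r` be linearly independent over `ℚ`, let the
`s_(i j)` be positive and, for every `i`, linearly independent over `ℚ`. For every `ε > 0` there are
`D`, `B` and `C` such that for all `T ≥ 1` the exceptional `n`-tuples are zeros of at most `C T ^ ε`
nonzero polynomials of degree at most `D`, and their number is at most `C T ^ ε N (T) ^ (n - 1)`,
where `N (T)` is the number of elements of `k` of height at most `T`. -/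
theorem result (k : Type) [Field k] [NumberField k] (τ : k →+* ℝ) (r m p n d : ℕ) (hn : 1 ≤ n)
    (σ : Fin r → ℝ) (s : Fin m → Fin p → ℝ)
    (hσ : ∀ (c0 : ℤ) (c : Fin r → ℤ), (c0 : ℝ) + ∑ i, (c i : ℝ) * σ i = 0 → c0 = 0 ∧ c = 0)
    (hs0 : ∀ i j, 0 < s i j) (hs : ∀ i, ∀ c : Fin p → ℤ, ∑ j, (c j : ℝ) * s i j = 0 → c = 0)
    (A a b ε : ℝ) (ha : 0 < a) (hab : a < b) (hε : 0 < ε) :
    ∃ (D : ℕ) (B C : ℝ), ∀ T : ℝ, 1 ≤ T →
      (∃ Φ : Finset (MvPolynomial (Fin n) k), (Φ.card : ℝ) ≤ C * T ^ ε ∧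
        (∀ Q ∈ Φ, Q ≠ 0 ∧ Q.totalDegree ≤ D) ∧
        ∀ x ∈ Exceptional τ n d σ s a b A B T, ∃ Q ∈ Φ, MvPolynomial.eval x Q = 0) ∧
      (Exceptional τ n d σ s a b A B T).Finite ∧
      ((Exceptional τ n d σ s a b A B T).ncard : ℝ) ≤
        C * T ^ ε * ({x : k | Height.mulHeight₁ x ≤ T}.ncard : ℝ) ^ (n - 1) := by
  obtain ⟨D, B, C, h⟩ :=
    Pool.Agent.Y216.TW.towermainK τ σ s hσ hs0 hs n d hn A a b ha hab ε hε
  refine ⟨D, B, C, fun T hT => ?_⟩
  have hset : Exceptional τ n d σ s a b A B T = Pool.Agent.Y216.TW.ExcT τ n d σ s a b A B T := by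
    have heq : ∀ x : Fin n → k, numbers τ σ s x = Pool.Agent.Y216.TW.numT τ σ s x := by
      intro x
      funext i
      rcases i with _ | ⟨l, (_ | i) | ⟨i, k, q⟩⟩
      · rfl
      · rfl
      · rfl
      · rfl
    ext x
    simp only [Exceptional, Pool.Agent.Y216.TW.ExcT, Set.mem_ofPred_eq, heq]
  rw [hset]
  exact h T hT

end Pool.Agent.Results.MP_47914d_nt.IteratedExponentials
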